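import Pool.Agent.TriW.Main

/-!
# Curves that fit in a triangle: explicit bounds for every triangle

Sides `a ≤ b ≤ c`, `h` is the height over `c` and `μ c` the distance of its foot from the vertex
opposite `b`.
-/

set_option autoImplicit false

namespace Pool.Agent.Results.MP_10e635_co.AllTriangles

open TriW

theorem result {a b c h μ : ℝ} (ha : 0 < a) (hab : a ≤ b) (hbc : b ≤ c) (hc : c < a + b)
    (hh : h = Real.sqrt ((a + b + c) * (-a + b + c) * (a - b + c) * (a + b - c)) / (2 * c))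
    (hμ : μ = (a ^ 2 + c ^ 2 - b ^ 2) / (2 * c ^ 2))
    {A B C : ℂ} (hA : dist B C = a) (hB : dist C A = b) (hC : dist A B = c) :
    4 / Real.sqrt (max (16 / c ^ 2 + 1 / h ^ 2)
      (max (9 / c ^ 2 + (2 - μ) ^ 2 / h ^ 2) (4 / c ^ 2 + 4 / h ^ 2))) ≤ L (Tri A B C) ∧
    L (Tri A B C) ≤ min c (4 * h / Real.sqrt 3) ∧
    min c (4 * h / Real.sqrt 3) ≤ Real.sqrt (91 / 48) * L (Tri A B C) := by
  have D := data ha hab hbc hc hA hB hC
  rw [← hh, ← hμ] at D
  exact ⟨L_chord D, L_upper D, L_ratio D⟩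

end Pool.Agent.Results.MP_10e635_co.AllTriangles
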