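import Pool.Agent.TriW.Main

/-!
# The longest curves that fit in a fat triangle

Sides `a ≤ b ≤ c`, and `S` is four times the area.
-/

set_option autoImplicit false

namespace Pool.Agent.Results.MP_10e635_co.FatTriangle

open TriW

theorem result {a b c S : ℝ} (ha : 0 < a) (hab : a ≤ b) (hbc : b ≤ c) (hc : c < a + b)
    (hS : S = Real.sqrt ((a + b + c) * (-a + b + c) * (a - b + c) * (a + b - c)))
    {A B C : ℂ} (hA : dist B C = a) (hB : dist C A = b) (hC : dist A B = c) :
    (5 * c ^ 4 ≤ 3 * S ^ 2 →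
      3 * c * S / Real.sqrt (9 * S ^ 2 + c ^ 4) ≤ L (Tri A B C)) ∧
    (8 * c ^ 4 ≤ 9 * S ^ 2 →
      L (Tri A B C) ≤ 3 * c * S / Real.sqrt (9 * S ^ 2 + (a ^ 2 + c ^ 2 - b ^ 2) ^ 2)) := by
  have D := data ha hab hbc hc hA hB hC
  rw [← hS] at D
  have hc0 := D.pos.c_pos
  have hS0 : 0 < S := by
    have := mul_pos D.pos.h_pos (show 0 < 2 * c by positivity)
    rwa [div_mul_cancel₀ _ (show 2 * c ≠ 0 by positivity)] at this
  have e : c ^ 2 * (S / (2 * c)) ^ 2 = S ^ 2 / 4 := by field_simp; norm_num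
  have hc2 : 0 < c ^ 2 := by positivity
  constructor
  · intro h
    rw [← conv_low hc0 hS0]
    refine L_fat D (le_of_mul_le_mul_left ?_ hc2)
    nlinarith
  · intro h
    rw [← conv_up hc0 hS0]
    refine L_zee D (le_of_mul_le_mul_left ?_ hc2)
    nlinarith

end Pool.Agent.Results.MP_10e635_co.FatTriangle
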