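import Pool.Agent.TriW.Main

/-!
# Curves that fit in a flat triangle

Sides `a ≤ b ≤ c`, `h` is the height over `c`, and `w₀` is the largest minimal width of a curve of
length `1`.
-/

set_option autoImplicit false

namespace Pool.Agent.Results.MP_10e635_co.FlatTriangles

open TriW

theorem result {a b c h : ℝ} (ha : 0 < a) (hab : a ≤ b) (hbc : b ≤ c) (hc : c < a + b)
    (hh : h = Real.sqrt ((a + b + c) * (-a + b + c) * (a - b + c) * (a + b - c)) / (2 * c))
    {A B C : ℂ} (hA : dist B C = a) (hB : dist C A = b) (hC : dist A B = c) :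
    Real.sqrt 3 / 4 ≤ w₀ ∧ L (Tri A B C) * w₀ ≤ h ∧
      h * c ≤ L (Tri A B C) * (w₀ * c + h) := by
  have D := data ha hab hbc hc hA hB hC
  rw [← hh] at D
  exact ⟨w₀_pos, L_flat D⟩

end Pool.Agent.Results.MP_10e635_co.FlatTriangles
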